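import Pool.Agent.H85.PS.Targets

/-!
# MP_3cf473_nt: module SPZ of the board `psv_modules`

The derivatives span at the point `z0`.
-/

set_option autoImplicit false

open Polynomial Finset Pool.Agent.H85.PS

namespace Pool.Agent.H47.PSV

variable {s : ℕ}

theorem mem_II {D : ℕ} {e : Fin s → ℕ} : e ∈ II s D ↔ ∑ k, e k ≤ D := by
  unfold II
  rw [mem_filter, Fintype.mem_piFinset, and_iff_right_iff_imp]
  intro h k
  rw [mem_range, Nat.lt_succ_iff]
  exact (single_le_sum (fun i _ => Nat.zero_le (e i)) (mem_univ k)).trans h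

theorem sup_nab {D : ℕ} (b : Fin s → ℚ) {A : Vec s} (h : Sup D A) : Sup D (nab b A) := by
  intro e he
  unfold nab
  rw [h e he, derivative_zero, mul_zero, zero_add]
  refine sum_eq_zero fun k _ => ?_
  rw [h (e + Pi.single k 1), mul_zero]
  simp only [Pi.add_apply, sum_add_distrib]
  omega

theorem nabI_succ (b : Fin s → ℚ) (i : ℕ) (A : Vec s) : nabI b (i + 1) A = nab b (nabI b i A) :=
  Function.iterate_succ_apply' (nab b) i A

theorem sup_nabI {D : ℕ} (b : Fin s → ℚ) {A : Vec s} (h : Sup D A) (i : ℕ) :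
    Sup D (nabI b i A) := by
  induction i with
  | zero => exact h
  | succ i ih =>
    rw [nabI_succ]
    exact sup_nab b ih

/-- the module generated by the first `n` derivatives -/
noncomputable def WW (b : Fin s → ℚ) (A : Vec s) (n : ℕ) : Submodule ℚ[X] (Vec s) :=
  Submodule.span ℚ[X] {B | ∃ i < n, B = nabI b i A}

theorem WW_mono (b : Fin s → ℚ) (A : Vec s) {n m : ℕ} (h : n ≤ m) : WW b A n ≤ WW b A m := by
  refine Submodule.span_mono ?_
  rintro B ⟨i, hi, rfl⟩
  exact ⟨i, lt_of_lt_of_le hi h, rfl⟩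

theorem nab_WW (h1 : T_LEI) (b : Fin s → ℚ) (A : Vec s) (n : ℕ) (B : Vec s)
    (hB : B ∈ WW b A n) : nab b B ∈ WW b A (n + 1) := by
  unfold WW at hB
  induction hB using Submodule.span_induction with
  | mem B hB =>
    obtain ⟨i, hi, rfl⟩ := hB
    rw [← nabI_succ]
    exact Submodule.subset_span ⟨i + 1, by omega, rfl⟩
  | zero =>
    have h2 := (h1 s b 0 0 0).2
    rw [add_zero] at h2
    have h3 : nab b (0 : Vec s) = 0 := by
      have h4 : nab b (0 : Vec s) + nab b (0 : Vec s) = nab b (0 : Vec s) + 0 := by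
        rw [add_zero]; exact h2.symm
      exact add_left_cancel h4
    rw [h3]
    exact Submodule.zero_mem _
  | add B B' _ _ ih ih' =>
    rw [(h1 s b 0 B B').2]
    exact Submodule.add_mem _ ih ih'
  | smul g B hB ih =>
    have h2 : nab b (g • B) = (th b * derivative g) • B + g • nab b B := (h1 s b g B B).1
    rw [h2]
    exact Submodule.add_mem _ (Submodule.smul_mem _ _ (WW_mono b A (Nat.le_succ n) hB))
      (Submodule.smul_mem _ _ ih)

theorem nab_iter_WW (h1 : T_LEI) (b : Fin s → ℚ) (A : Vec s) (n : ℕ) (B : Vec s)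
    (hB : B ∈ WW b A n) (m : ℕ) : (nab b)^[m] B ∈ WW b A (n + m) := by
  induction m with
  | zero => exact hB
  | succ m ih =>
    rw [Function.iterate_succ_apply']
    exact nab_WW h1 b A (n + m) _ ih

/-- derivatives of a multiple of a power of `X - z0` -/
theorem iter_pow (h1 : T_LEI) (b : Fin s → ℚ) (z0 : ℚ) : ∀ (n : ℕ) (U : Vec s) (e : Fin s → ℕ),
    ((nab b)^[n] (fun e => (X - C z0) ^ n * U e) e).eval z0 =
      (n.factorial : ℚ) * (th b).eval z0 ^ n * (U e).eval z0 := by
  intro n
  induction n with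
  | zero =>
    intro U e
    rw [Function.iterate_zero, id, pow_zero, one_mul, Nat.factorial_zero, Nat.cast_one, one_mul,
      pow_zero, one_mul]
  | succ n ih =>
    intro U e
    have h2 := (h1 s b ((X - C z0) ^ (n + 1)) U U).1
    have h3 : nab b (fun e => (X - C z0) ^ (n + 1) * U e) =
        fun e => (X - C z0) ^ n * (th b * (C ((n : ℚ) + 1)) * U e + (X - C z0) * nab b U e) := by
      rw [h2]
      funext e
      rw [derivative_pow, derivative_sub, derivative_X, derivative_C, sub_zero, mul_one,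
        Nat.add_sub_cancel, Nat.cast_succ, pow_succ]
      ring
    rw [Function.iterate_succ_apply, h3, ih]
    rw [eval_add, eval_mul, eval_mul, eval_C, eval_mul, eval_sub, eval_X, eval_C, sub_self,
      zero_mul, add_zero, Nat.factorial_succ, pow_succ]
    push_cast
    ring

theorem pf_SPZ (h1 : T_LEI) : T_SPZ := by
  intro s D b A z0 hA hth hdet Λ hΛ e1 he1
  set om := rootMultiplicity z0 (Dt b D A) with hom
  -- the linear form
  have hL : ∀ B ∈ WW b A (MM s D + om), ∑ e ∈ II s D, Λ e * (B e).eval z0 = 0 := by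
    intro B hB
    unfold WW at hB
    induction hB using Submodule.span_induction with
    | mem B hB =>
      obtain ⟨i, hi, rfl⟩ := hB
      exact hΛ i hi
    | zero =>
      refine sum_eq_zero fun e _ => ?_
      rw [Pi.zero_apply, eval_zero, mul_zero]
    | add B B' _ _ ih ih' =>
      rw [← add_zero (0 : ℚ)]
      nth_rewrite 1 [← ih]
      rw [← ih', ← sum_add_distrib]
      refine sum_congr rfl fun e _ => ?_
      rw [Pi.add_apply, eval_add, mul_add]
    | smul g B _ ih =>
      rw [← mul_zero (g.eval z0), ← ih, mul_sum]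
      refine sum_congr rfl fun e _ => ?_
      rw [Pi.smul_apply, smul_eq_mul, eval_mul]
      ring
  -- Cramer's rule
  set M : Matrix (Fin (MM s D)) (Fin (MM s D)) ℚ[X] :=
    Matrix.of fun i j => nabI b i A (Jf s D j) with hM
  have hMd : M.det = Dt b D A := rfl
  obtain ⟨j1, hj1⟩ : ∃ j1, Jf s D j1 = e1 :=
    ⟨(II s D).equivFin ⟨e1, he1⟩, by unfold Jf; rw [Equiv.symm_apply_apply]⟩
  have hJinj : Function.Injective (Jf s D) := by
    intro i j hij
    exact (II s D).equivFin.symm.injective (Subtype.ext hij)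
  have hV : (fun e => Dt b D A * if e = e1 then 1 else 0) ∈ WW b A (MM s D) := by
    have h2 : (fun e => Dt b D A * if e = e1 then 1 else 0) =
        ∑ i : Fin (MM s D), M.adjugate j1 i • nabI b i A := by
      funext e
      rw [Finset.sum_apply]
      simp only [Pi.smul_apply, smul_eq_mul]
      by_cases he : e ∈ II s D
      · obtain ⟨j, rfl⟩ : ∃ j, Jf s D j = e :=
          ⟨(II s D).equivFin ⟨e, he⟩, by unfold Jf; rw [Equiv.symm_apply_apply]⟩
        have h3 := congrFun (congrFun (Matrix.adjugate_mul M) j1) j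
        rw [Matrix.mul_apply, Matrix.smul_apply, Matrix.one_apply, hMd, smul_eq_mul] at h3
        have h4 : ∑ i, M.adjugate j1 i * nabI b i A (Jf s D j) =
            Dt b D A * if j1 = j then 1 else 0 := h3
        rw [h4, ← hj1]
        by_cases hjj : j1 = j
        · rw [if_pos hjj, if_pos (by rw [hjj])]
        · rw [if_neg hjj, if_neg fun h => hjj (hJinj h).symm]
      · rw [if_neg (by rintro rfl; exact he he1), mul_zero]
        symm
        refine sum_eq_zero fun i _ => ?_
        rw [sup_nabI b hA i e (by rw [mem_II] at he; omega), mul_zero]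
    rw [h2]
    refine Submodule.sum_mem _ fun i _ => Submodule.smul_mem _ _ (Submodule.subset_span ?_)
    exact ⟨i, i.2, rfl⟩
  have hV2 := nab_iter_WW h1 b A (MM s D) _ hV om
  obtain ⟨g, hg, hgd⟩ := exists_eq_pow_rootMultiplicity_mul_and_not_dvd (Dt b D A) hdet z0
  rw [← hom] at hg
  have h3 : (fun e => Dt b D A * if e = e1 then (1 : ℚ[X]) else 0) =
      fun e => (X - C z0) ^ om * (g * if e = e1 then (1 : ℚ[X]) else 0) := by
    funext e
    nth_rewrite 1 [hg]
    ring
  have h4 := hL _ hV2
  rw [h3] at h4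
  simp only [iter_pow h1 b z0] at h4
  rw [sum_eq_single_of_mem e1 he1] at h4
  · rw [if_pos rfl, mul_one] at h4
    have hg0 : g.eval z0 ≠ 0 := fun h => hgd (dvd_iff_isRoot.2 h)
    have h5 : (om.factorial : ℚ) * (th b).eval z0 ^ om * g.eval z0 ≠ 0 :=
      mul_ne_zero (mul_ne_zero (Nat.cast_ne_zero.2 (Nat.factorial_ne_zero om))
        (pow_ne_zero _ hth)) hg0
    exact (mul_eq_zero.1 h4).resolve_right h5
  · intro e _ he
    rw [if_neg he, mul_zero, eval_zero, mul_zero, mul_zero]

end Pool.Agent.H47.PSV
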